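import Mathlib
import Pool.Agent.H363R2.SharpCor

set_option autoImplicit false

/-! # The tag system `0 → 12, 1 → 0, 2 → 000` with shift 2 stops on a positive proportion of the `0 ^ n`

For a positive proportion of the `n ≤ x` the computation on `0 ^ n` stops, at the word `0`, after at most
`n (log n) ^ 8` steps.  Libraries: helper363 (positive proportion, for the `3x+1` map, with control of the
stopping time and of the excursion), helper412 (the tag system); assembled by helper981. -/

namespace Pool.Agent.Results.MP_c95a35_lc.PositiveProportion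

open Filter

/-- the production words `0 → 12, 1 → 0, 2 → 000` -/
def P (a : Fin 3) : List (Fin 3) := if a = 0 then [1, 2] else if a = 1 then [0] else [0, 0, 0]

/-- one step of the tag system: remove the first two letters, append the production of the first one -/
def step (w : List (Fin 3)) : List (Fin 3) := w.drop 2 ++ P (w.headD 0)

/-- the computation on `α` stops (the first word with less than two letters) exactly after `k` steps -/
def StopsAt (α : List (Fin 3)) (k : ℕ) : Prop :=
  (step^[k] α).length < 2 ∧ ∀ j < k, 2 ≤ (step^[j] α).length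

theorem result : ∃ c : ℝ, 0 < c ∧ ∀ᶠ x : ℝ in atTop,
    c * x ≤ (Set.ncard {n : ℕ | 1 ≤ n ∧ (n : ℝ) ≤ x ∧ ∃ k : ℕ,
      (k : ℝ) ≤ n * Real.log n ^ 8 ∧ StopsAt (List.replicate n 0) k ∧
        step^[k] (List.replicate n 0) = [0]} : ℝ) := by
  obtain ⟨c, hc, h⟩ := Pool.Agent.H363R2.sharp_tag step (fun w => rfl)
  refine ⟨c, hc, ?_⟩
  filter_upwards [h] with x hx
  refine hx.trans ?_
  have hsub : {n : ℕ | 1 ≤ n ∧ (n : ℝ) ≤ x ∧ ∃ k : ℕ,
        (k : ℝ) ≤ n * Real.log n ^ 8 ∧
        step^[k] (List.replicate n (0 : Fin 3)) = [0] ∧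
        ∀ j < k, 2 ≤ (step^[j] (List.replicate n (0 : Fin 3))).length} ⊆
      {n : ℕ | 1 ≤ n ∧ (n : ℝ) ≤ x ∧ ∃ k : ℕ,
      (k : ℝ) ≤ n * Real.log n ^ 8 ∧ StopsAt (List.replicate n 0) k ∧
        step^[k] (List.replicate n 0) = [0]} := by
    rintro n ⟨h1, h2, k, h3, h4, h5⟩
    refine ⟨h1, h2, k, h3, ⟨?_, h5⟩, h4⟩
    rw [h4]
    simp
  have hfin : {n : ℕ | 1 ≤ n ∧ (n : ℝ) ≤ x ∧ ∃ k : ℕ,
      (k : ℝ) ≤ n * Real.log n ^ 8 ∧ StopsAt (List.replicate n 0) k ∧
        step^[k] (List.replicate n 0) = [0]}.Finite := by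
    apply (Set.finite_Iic ⌊x⌋₊).subset
    intro n hn
    exact Nat.le_floor hn.2.1
  exact_mod_cast Set.ncard_le_ncard hsub hfin

end Pool.Agent.Results.MP_c95a35_lc.PositiveProportion
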